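import Pool.Agent.Q215.TD.Stm

/-!
# TD-PER (job of helper215): periods of the local model
-/

set_option autoImplicit false

namespace Pool.Agent.Q222.TD

open Pool.Agent.Q215.TD Filter Topology

variable {n : ℕ}

theorem rad_pos (k : ℕ) : 0 < rad k := by unfold rad; positivity

theorem qn_tw (ρ a : ℝ) (v : W n) : qn (tw ρ a v) = qn v := by
  unfold qn tw
  simp only [norm_mul, Complex.norm_exp_ofReal_mul_I, one_mul]

theorem bump_congr (ρ : ℝ) {v v' : W n} (h : qn v = qn v') : bump ρ v = bump ρ v' := by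
  unfold bump; rw [h]

theorem tw_tw (ρ a b : ℝ) (v : W n) : tw ρ a (tw ρ b v) = tw ρ (a + b) v := by
  have hb : bump ρ (tw ρ b v) = bump ρ v := bump_congr ρ (qn_tw ρ b v)
  refine Prod.ext ?_ rfl
  change Complex.exp _ * (Complex.exp _ * v.1) = Complex.exp _ * v.1
  rw [hb, ← mul_assoc, ← Complex.exp_add]
  congr 2
  push_cast
  ring

theorem tw_zero (ρ : ℝ) (v : W n) : tw ρ 0 v = v := by
  refine Prod.ext ?_ rfl
  change Complex.exp _ * v.1 = v.1
  simp

theorem tw_eq_of_fst (ρ a : ℝ) {v : W n} (h : v.1 = 0) : tw ρ a v = v := by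
  refine Prod.ext ?_ rfl
  change Complex.exp _ * v.1 = v.1
  simp [h]

theorem bump_pos {ρ : ℝ} (hρ : 0 < ρ) {v : W n} (h : qn v < ρ ^ 2) : 0 < bump ρ v := by
  apply Real.smoothTransition.pos_of_pos
  have : qn v / ρ ^ 2 < 1 := (div_lt_one (by positivity)).2 h
  have h2 : 2 * qn v / ρ ^ 2 = 2 * (qn v / ρ ^ 2) := by ring
  rw [h2]; linarith

/-- no fixed points for a small angle -/
theorem tw_ne {ρ a : ℝ} (hρ : 0 < ρ) (ha : 0 < a) (ha1 : a < 1) {v : W n} (h : qn v < ρ ^ 2)
    (hv : v.1 ≠ 0) : tw ρ a v ≠ v := by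
  intro he
  have h1 : Complex.exp (((2 * Real.pi * (a * bump ρ v) : ℝ) : ℂ) * Complex.I) * v.1 = v.1 :=
    congrArg Prod.fst he
  have h2 : Complex.exp (((2 * Real.pi * (a * bump ρ v) : ℝ) : ℂ) * Complex.I) = 1 :=
    mul_right_cancel₀ hv (by rw [h1, one_mul])
  obtain ⟨m, hm⟩ := Complex.exp_eq_one_iff.1 h2
  have hπ : (2 * Real.pi : ℝ) ≠ 0 := by positivity
  have h3 : a * bump ρ v = m := by
    have h4 : ((2 * Real.pi * (a * bump ρ v) : ℝ) : ℂ) = ((2 * Real.pi * (m : ℝ) : ℝ) : ℂ) := by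
      apply mul_right_cancel₀ Complex.I_ne_zero
      rw [hm]; push_cast; ring
    exact mul_left_cancel₀ hπ (Complex.ofReal_injective h4)
  have hb := bump_pos hρ h
  have hb1 : bump ρ v ≤ 1 := Real.smoothTransition.le_one _
  have h5 : (0 : ℝ) < m := by rw [← h3]; positivity
  have h6 : (m : ℝ) < 1 := by
    rw [← h3]
    calc a * bump ρ v ≤ a * 1 := by gcongr
      _ < 1 := by linarith
  have h7 : (0 : ℤ) < m := by exact_mod_cast h5
  have h8 : (m : ℤ) < 1 := by exact_mod_cast h6
  omega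

theorem t_PER : S_PER := by
  intro hF n N hN x
  obtain ⟨-, hin, hout, -, -, -⟩ := hF n N hN 1 (Or.inl rfl) x
  have hNk : ∀ k, (2 : ℝ) ≤ N k := fun k => by exact_mod_cast hN.two k
  have hit : ∀ k (w : W n), qn (w - cen x k) < rad k ^ 2 → ∀ m : ℕ,
      (FF N 1 x)^[m] w = cen x k + tw (rad k) (m * (1 / N k)) (w - cen x k) := by
    intro k w hw m
    induction m with
    | zero => simp [tw_zero]
    | succ m ih =>
      rw [Function.iterate_succ_apply', ih]
      have h1 : (cen x k + tw (rad k) (m * (1 / N k)) (w - cen x k)) - cen x k =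
          tw (rad k) (m * (1 / N k)) (w - cen x k) := by abel
      have h2 := (hin (cen x k + tw (rad k) (m * (1 / N k)) (w - cen x k)) k (by
        rw [h1, qn_tw]; exact hw)).1
      rw [h2, h1, tw_tw]
      congr 2
      push_cast; ring
  have hne : ∀ k (w : W n), w ∈ UU (n := n) x k → ∀ m : ℕ, 0 < m → m < N k →
      (FF N 1 x)^[m] w ≠ w := by
    intro k w hw m hm hmN he
    rw [hit k w hw.1 m] at he
    have h1 : tw (rad k) (m * (1 / N k)) (w - cen x k) = w - cen x k := by
      rw [← he]; rw [he]; exact eq_sub_of_add_eq' he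
    have hpos : (0 : ℝ) < N k := by linarith [hNk k]
    refine tw_ne (rad_pos k) ?_ ?_ hw.1 ?_ h1
    · have : (0 : ℝ) < m := by exact_mod_cast hm
      positivity
    · have : (m : ℝ) < N k := by exact_mod_cast hmN
      rw [mul_one_div, div_lt_one hpos]; exact this
    · exact hw.2
  refine ⟨?_, ?_, hne, ?_⟩
  · ext w
    simp only [Set.mem_setOf_eq, Set.mem_iUnion]
    constructor
    · intro hw
      by_contra hcon
      by_cases hb : ∀ k, rad k ^ 2 ≤ qn (w - cen x k)
      · exact hw (hout w hb)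
      · push Not at hb
        obtain ⟨k, hk⟩ := hb
        refine hcon ⟨k, hk, ?_⟩
        intro h0
        apply hw
        rw [(hin w k hk).1]
        have h1 : (w - cen x k).1 = 0 := h0
        rw [tw_eq_of_fst _ _ h1]; abel
    · rintro ⟨k, hk⟩
      have := hne k w hk 1 one_pos (by have := hN.two k; omega)
      simpa using this
  · intro k w hw
    obtain ⟨h1, h2⟩ := hin w k hw.1
    refine ⟨h2, ?_⟩
    rw [h1]
    have h3 : (cen x k + tw (rad k) (1 / N k) (w - cen x k) : W n).1 - (cen (n := n) x k).1 =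
        Complex.exp (((2 * Real.pi * ((1 / N k) * bump (rad k) (w - cen x k)) : ℝ) : ℂ) * Complex.I)
          * (w - cen x k).1 := by
      change (cen (n := n) x k).1 + _ - (cen (n := n) x k).1 = _
      rw [add_sub_cancel_left]; rfl
    rw [h3]
    exact mul_ne_zero (Complex.exp_ne_zero _) hw.2
  · intro k
    have hρ := rad_pos k
    have hq : qn ((((rad k / 2 : ℝ) : ℂ), 0) : W n) = rad k ^ 2 / 4 := by
      unfold qn
      simp only [Complex.norm_real, norm_zero, Real.norm_eq_abs, sq_abs]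
      ring
    have hsub : ((cen x k + (((rad k / 2 : ℝ) : ℂ), 0) : W n) - cen x k) =
        (((rad k / 2 : ℝ) : ℂ), 0) := by abel
    have hlt : qn ((cen x k + (((rad k / 2 : ℝ) : ℂ), 0) : W n) - cen x k) < rad k ^ 2 := by
      rw [hsub, hq]; nlinarith [sq_nonneg (rad k), pow_pos hρ 2]
    refine ⟨cen x k + (((rad k / 2 : ℝ) : ℂ), 0), ⟨hlt, ?_⟩, ?_⟩
    · have : (cen x k + (((rad k / 2 : ℝ) : ℂ), 0) : W n).1 - (cen (n := n) x k).1 =
          ((rad k / 2 : ℝ) : ℂ) := by
        change (cen (n := n) x k).1 + _ - (cen (n := n) x k).1 = _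
        rw [add_sub_cancel_left]
      rw [this]
      have : (rad k / 2 : ℝ) ≠ 0 := by positivity
      exact_mod_cast this
    · rw [hit k _ hlt (N k), hsub]
      have hN0 : ((N k : ℕ) : ℝ) ≠ 0 := by linarith [hNk k]
      have hb : bump (rad k) ((((rad k / 2 : ℝ) : ℂ), 0) : W n) = 1 := by
        unfold bump
        rw [hq]
        apply Real.smoothTransition.one_of_one_le
        have h0 : rad k ^ 2 ≠ 0 := by positivity
        have : 2 * (rad k ^ 2 / 4) / rad k ^ 2 = 1 / 2 := by field_simp; norm_num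
        rw [this]; norm_num
      have : tw (rad k) ((N k : ℝ) * (1 / N k)) ((((rad k / 2 : ℝ) : ℂ), 0) : W n) =
          (((rad k / 2 : ℝ) : ℂ), 0) := by
        refine Prod.ext ?_ rfl
        change Complex.exp _ * _ = _
        rw [hb, mul_one_div_cancel hN0]
        have : (((2 * Real.pi * (1 * 1) : ℝ) : ℂ) * Complex.I) = 2 * Real.pi * Complex.I := by
          push_cast; ring
        rw [this, Complex.exp_two_pi_mul_I, one_mul]
      rw [this]

end Pool.Agent.Q222.TD
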